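import Mathlib

set_option autoImplicit false
set_option linter.unusedSectionVars false
set_option linter.unusedVariables false

/-!
# The orbit of the dumbbell graph under the NF-map (combinatorial core)
-/

open Finset

namespace Pool.Agent.R140.NF

variable {V : Type*} [Fintype V] [DecidableEq V]

/-- the sets containing no inclusion-maximal member of `P`. -/
def dl (P : Finset V → Prop) : Finset V → Prop := fun G => ∀ F, Maximal P F → ¬ F ⊆ G

structure Hyp (A B : Finset V) (x y : V) : Prop where
  disj : Disjoint A B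
  cov : A ∪ B = univ
  hx : x ∈ A
  hy : y ∈ B
  hA : 2 ≤ A.card
  hB : 2 ≤ B.card

variable {A B : Finset V} {x y : V}

theorem Hyp.symm (h : Hyp A B x y) : Hyp B A y x :=
  ⟨h.disj.symm, by rw [union_comm]; exact h.cov, h.hy, h.hx, h.hB, h.hA⟩

theorem Hyp.notB (h : Hyp A B x y) {a : V} (ha : a ∈ A) : a ∉ B := fun hb =>
  (Finset.disjoint_left.1 h.disj) ha hb

theorem Hyp.notA (h : Hyp A B x y) {b : V} (hb : b ∈ B) : b ∉ A := fun ha =>
  (Finset.disjoint_left.1 h.disj) ha hb

theorem Hyp.or (h : Hyp A B x y) (v : V) : v ∈ A ∨ v ∈ B := by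
  have : v ∈ A ∪ B := by rw [h.cov]; exact mem_univ v
  exact mem_union.1 this

theorem Hyp.card (h : Hyp A B x y) : A.card + B.card = Fintype.card V := by
  rw [← card_union_of_disjoint h.disj, h.cov, card_univ]

theorem Hyp.exA (h : Hyp A B x y) (v : V) : ∃ a ∈ A, a ≠ v := by
  by_contra hc
  push Not at hc
  have : A ⊆ {v} := fun a ha => by rw [mem_singleton]; exact hc a ha
  have h1 := card_le_card this
  have h2 := h.hA
  rw [card_singleton] at h1
  omega

def I0 (A B : Finset V) (x y : V) (F : Finset V) : Prop :=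
  F.card ≤ 1 ∨ (F.card = 2 ∧ (F ⊆ A ∨ F ⊆ B)) ∨ F = {x, y}

def I1 (A B : Finset V) (x y : V) (F : Finset V) : Prop :=
  (F ∩ A).card ≤ 1 ∧ (F ∩ B).card ≤ 1 ∧ ¬ (x ∈ F ∧ y ∈ F)

def I2 (A B : Finset V) (x y : V) (F : Finset V) : Prop :=
  F ⊆ A ∨ F ⊆ B ∨ F = {x, y}

def I3 (A B : Finset V) (x y : V) (F : Finset V) : Prop :=
  ¬ A ⊆ F ∧ ¬ B ⊆ F ∧ ¬ (x ∈ F ∧ y ∈ F)

def I4 (A B : Finset V) (x y : V) (F : Finset V) : Prop :=
  (∀ b ∈ B, ¬ Fᶜ ⊆ {x, b}) ∧ (∀ a ∈ A, ¬ Fᶜ ⊆ {a, y})

def D (A B : Finset V) (x y : V) (s : ℕ) (F : Finset V) : Prop :=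
  F.card ≤ s ∨ (F.card = s + 1 ∧ ¬ (x ∈ F ∧ y ∈ F) ∧ ¬ A ⊆ F ∧ ¬ B ⊆ F) ∨
    (F.card = s + 2 ∧ (F ⊆ A ∨ F ⊆ B))

/-! ### Symmetry -/

theorem I0_symm (F : Finset V) : I0 A B x y F ↔ I0 B A y x F := by
  unfold I0
  rw [Finset.pair_comm x y, or_comm (a := F ⊆ A)]

theorem D_symm (s : ℕ) (F : Finset V) : D A B x y s F ↔ D B A y x s F := by
  unfold D
  tauto

/-! ### A tool for maximality -/

/-- a face that is not maximal if it has a proper superset in `P`. -/
theorem not_max_insert {P : Finset V → Prop} {F : Finset V} (hF : Maximal P F) {v : V}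
    (hv : v ∉ F) : ¬ P (insert v F) := by
  intro h
  have := hF.2 h (subset_insert v F)
  exact hv (this (mem_insert_self v F))

theorem max_sub {P : Finset V → Prop} {F G : Finset V} (hF : Maximal P F) (hG : P G)
    (h : F ⊆ G) : G ⊆ F := hF.2 hG h

/-! ### Steps 0 → 1 → 2 → 3 → 4 -/

theorem pair_facet_I0 (h : Hyp A B x y) {F : Finset V} (hc : F.card = 2)
    (hp : F ⊆ A ∨ F ⊆ B ∨ F = {x, y}) : Maximal (I0 A B x y) F := by
  have hxy : x ≠ y := fun e => h.notB h.hx (e ▸ h.hy)
  refine ⟨?_, ?_⟩
  · rcases hp with hp | hp | hp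
    · exact Or.inr (Or.inl ⟨hc, Or.inl hp⟩)
    · exact Or.inr (Or.inl ⟨hc, Or.inr hp⟩)
    · exact Or.inr (Or.inr hp)
  · intro G hG hFG
    have hG2 : G.card ≤ 2 := by
      rcases hG with hG | hG | hG
      · omega
      · omega
      · rw [hG]; exact card_le_two
    have : F = G := eq_of_subset_of_card_le hFG (by omega)
    exact this ▸ le_refl _

theorem dl_I0 (h : Hyp A B x y) (G : Finset V) : dl (I0 A B x y) G ↔ I1 A B x y G := by
  have hxy : x ≠ y := fun e => h.notB h.hx (e ▸ h.hy)
  constructor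
  · intro hG
    refine ⟨?_, ?_, ?_⟩
    · by_contra hc
      push Not at hc
      obtain ⟨F, hF, hFc⟩ := exists_subset_card_eq (n := 2) (s := G ∩ A) (by omega)
      exact hG F (pair_facet_I0 h hFc (Or.inl (hF.trans inter_subset_right)))
        (hF.trans inter_subset_left)
    · by_contra hc
      push Not at hc
      obtain ⟨F, hF, hFc⟩ := exists_subset_card_eq (n := 2) (s := G ∩ B) (by omega)
      exact hG F (pair_facet_I0 h hFc (Or.inr (Or.inl (hF.trans inter_subset_right))))
        (hF.trans inter_subset_left)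
    · rintro ⟨h1, h2⟩
      refine hG {x, y} (pair_facet_I0 h (card_pair hxy) (Or.inr (Or.inr rfl))) ?_
      intro v hv
      rw [mem_insert, mem_singleton] at hv
      rcases hv with rfl | rfl
      · exact h1
      · exact h2
  · rintro ⟨h1, h2, h3⟩ F hF hFG
    rcases hF.1 with hF1 | ⟨hF1, hF2⟩ | hF1
    · -- card ≤ 1: not maximal
      have key : ∃ v, v ∉ F ∧ (insert v F ⊆ A ∨ insert v F ⊆ B) := by
        rcases Nat.le_one_iff_eq_zero_or_eq_one.1 hF1 with h0 | h0
        · rw [card_eq_zero] at h0
          subst h0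
          refine ⟨x, by simp, Or.inl ?_⟩
          intro v hv
          simp only [mem_insert, notMem_empty, or_false] at hv
          exact hv ▸ h.hx
        · rw [card_eq_one] at h0
          obtain ⟨w, rfl⟩ := h0
          rcases h.or w with hw | hw
          · obtain ⟨a, ha, haw⟩ := h.exA w
            refine ⟨a, by rwa [mem_singleton], Or.inl ?_⟩
            intro v hv
            rw [mem_insert, mem_singleton] at hv
            rcases hv with rfl | rfl
            · exact ha
            · exact hw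
          · obtain ⟨a, ha, haw⟩ := h.symm.exA w
            refine ⟨a, by rwa [mem_singleton], Or.inr ?_⟩
            intro v hv
            rw [mem_insert, mem_singleton] at hv
            rcases hv with rfl | rfl
            · exact ha
            · exact hw
      obtain ⟨v, hv, hvA⟩ := key
      refine not_max_insert hF hv ?_
      rcases Nat.lt_or_ge (insert v F).card 2 with hc | hc
      · exact Or.inl (by omega)
      · refine Or.inr (Or.inl ⟨?_, hvA⟩)
        have := card_insert_of_notMem hv
        omega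
    · rcases hF2 with hF2 | hF2
      · have : F ⊆ G ∩ A := subset_inter hFG hF2
        have := card_le_card this
        omega
      · have : F ⊆ G ∩ B := subset_inter hFG hF2
        have := card_le_card this
        omega
    · subst hF1
      exact h3 ⟨hFG (by simp), hFG (by simp)⟩

/-- a facet of `I1` meets `A`. -/
theorem meetA_I1 (h : Hyp A B x y) {F : Finset V} (hF : Maximal (I1 A B x y) F) :
    ∃ a ∈ A, a ∈ F := by
  by_contra hc
  push Not at hc
  obtain ⟨h1, h2, h3⟩ := hF.1
  obtain ⟨a, ha, hax⟩ := h.exA x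
  refine not_max_insert hF (hc a ha) ⟨?_, ?_, ?_⟩
  · have : insert a F ∩ A ⊆ {a} := by
      intro v hv
      rw [mem_inter, mem_insert] at hv
      rw [mem_singleton]
      rcases hv with ⟨rfl | hv1, hv2⟩
      · rfl
      · exact absurd hv1 (hc v hv2)
    exact (card_le_card this).trans (by simp)
  · have : insert a F ∩ B ⊆ F ∩ B := by
      intro v hv
      rw [mem_inter, mem_insert] at hv
      rw [mem_inter]
      rcases hv with ⟨rfl | hv1, hv2⟩
      · exact absurd hv2 (h.notB ha)
      · exact ⟨hv1, hv2⟩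
    exact (card_le_card this).trans h2
  · rintro ⟨hx1, -⟩
    rw [mem_insert] at hx1
    rcases hx1 with hx1 | hx1
    · exact hax hx1.symm
    · exact hc x h.hx hx1

theorem I1_symm (F : Finset V) : I1 A B x y F ↔ I1 B A y x F := by
  unfold I1; tauto

theorem max_congr {P Q : Finset V → Prop} (hPQ : ∀ F, P F ↔ Q F) {F : Finset V} :
    Maximal P F ↔ Maximal Q F := by
  have : P = Q := funext fun F => propext (hPQ F)
  rw [this]

theorem meetB_I1 (h : Hyp A B x y) {F : Finset V} (hF : Maximal (I1 A B x y) F) :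
    ∃ b ∈ B, b ∈ F :=
  meetA_I1 h.symm ((max_congr (I1_symm (A := A) (B := B) (x := x) (y := y))).1 hF)

theorem pair_facet_I1 (h : Hyp A B x y) {a b : V} (ha : a ∈ A) (hb : b ∈ B)
    (hab : ¬ (a = x ∧ b = y)) : Maximal (I1 A B x y) {a, b} := by
  refine ⟨⟨?_, ?_, ?_⟩, ?_⟩
  · have : ({a, b} : Finset V) ∩ A ⊆ {a} := by
      intro v hv
      rw [mem_inter, mem_insert, mem_singleton] at hv
      rw [mem_singleton]
      rcases hv with ⟨rfl | rfl, hv2⟩
      · rfl
      · exact absurd hv2 (h.notA hb)
    exact (card_le_card this).trans (by simp)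
  · have : ({a, b} : Finset V) ∩ B ⊆ {b} := by
      intro v hv
      rw [mem_inter, mem_insert, mem_singleton] at hv
      rw [mem_singleton]
      rcases hv with ⟨rfl | rfl, hv2⟩
      · exact absurd hv2 (h.notB ha)
      · rfl
    exact (card_le_card this).trans (by simp)
  · rintro ⟨h1, h2⟩
    rw [mem_insert, mem_singleton] at h1 h2
    apply hab
    constructor
    · rcases h1 with h1 | h1
      · exact h1.symm
      · exact absurd (h1 ▸ h.hx) (h.notA hb)
    · rcases h2 with h2 | h2
      · exact absurd (h2 ▸ h.hy) (h.notB ha)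
      · exact h2.symm
  · rintro F' ⟨h1, h2, h3⟩ hsub
    have haF : a ∈ F' := hsub (by simp)
    have hbF : b ∈ F' := hsub (by simp)
    intro v hv
    rw [mem_insert, mem_singleton]
    rcases h.or v with hvA | hvB
    · left
      exact card_le_one.1 h1 v (mem_inter.2 ⟨hv, hvA⟩) a (mem_inter.2 ⟨haF, ha⟩)
    · right
      exact card_le_one.1 h2 v (mem_inter.2 ⟨hv, hvB⟩) b (mem_inter.2 ⟨hbF, hb⟩)

theorem dl_I1 (h : Hyp A B x y) (G : Finset V) : dl (I1 A B x y) G ↔ I2 A B x y G := by
  constructor
  · intro hG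
    by_contra hc
    unfold I2 at hc
    push Not at hc
    obtain ⟨h1, h2, h3⟩ := hc
    obtain ⟨b, hbG, hbA⟩ := not_subset.1 h1
    obtain ⟨a, haG, haB⟩ := not_subset.1 h2
    have hbB : b ∈ B := (h.or b).resolve_left hbA
    have haA : a ∈ A := (h.or a).resolve_right haB
    have key : ∃ a' ∈ A, ∃ b' ∈ B, a' ∈ G ∧ b' ∈ G ∧ ¬ (a' = x ∧ b' = y) := by
      by_contra hk
      push Not at hk
      apply h3
      have hax := hk a haA b hbB haG hbG
      ext v
      rw [mem_insert, mem_singleton]
      constructor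
      · intro hv
        rcases h.or v with hvA | hvB
        · left; exact (hk v hvA b hbB hv hbG).1
        · right; exact (hk a haA v hvB haG hv).2
      · rintro (rfl | rfl)
        · exact hax.1 ▸ haG
        · exact hax.2 ▸ hbG
    obtain ⟨a', ha', b', hb', ha'G, hb'G, hab⟩ := key
    refine hG {a', b'} (pair_facet_I1 h ha' hb' hab) ?_
    intro v hv
    rw [mem_insert, mem_singleton] at hv
    rcases hv with rfl | rfl
    · exact ha'G
    · exact hb'G
  · intro hG F hF hFG
    obtain ⟨a, ha, haF⟩ := meetA_I1 h hF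
    obtain ⟨b, hb, hbF⟩ := meetB_I1 h hF
    rcases hG with hG | hG | hG
    · exact h.notA hb (hG (hFG hbF))
    · exact h.notB ha (hG (hFG haF))
    · subst hG
      have h1 := hFG haF
      have h2 := hFG hbF
      rw [mem_insert, mem_singleton] at h1 h2
      have h3 : a = x := by
        rcases h1 with h1 | h1
        · exact h1
        · exact absurd (h1 ▸ h.hy) (h.notB ha)
      have h4 : b = y := by
        rcases h2 with h2 | h2
        · exact absurd (h2 ▸ h.hx) (h.notA hb)
        · exact h2
      exact hF.1.2.2 ⟨h3 ▸ haF, h4 ▸ hbF⟩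

theorem A_facet_I2 (h : Hyp A B x y) : Maximal (I2 A B x y) A := by
  refine ⟨Or.inl (Subset.refl _), ?_⟩
  intro F hF hAF
  rcases hF with hF | hF | hF
  · exact hF
  · exact absurd (hF (hAF h.hx)) (h.notB h.hx)
  · exfalso
    obtain ⟨a, ha, hax⟩ := h.exA x
    have := hAF ha
    rw [hF, mem_insert, mem_singleton] at this
    rcases this with h1 | h1
    · exact hax h1
    · exact h.notB ha (h1 ▸ h.hy)

theorem I2_symm (F : Finset V) : I2 A B x y F ↔ I2 B A y x F := by
  unfold I2
  rw [Finset.pair_comm x y]; tauto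

theorem B_facet_I2 (h : Hyp A B x y) : Maximal (I2 A B x y) B :=
  (max_congr (I2_symm (A := A) (B := B) (x := x) (y := y))).2 (A_facet_I2 h.symm)

theorem xy_facet_I2 (h : Hyp A B x y) : Maximal (I2 A B x y) {x, y} := by
  refine ⟨Or.inr (Or.inr rfl), ?_⟩
  intro F hF hAF
  rcases hF with hF | hF | hF
  · exact absurd (hF (hAF (by simp))) (h.notA h.hy)
  · exact absurd (hF (hAF (by simp))) (h.notB h.hx)
  · exact hF ▸ le_refl _

theorem dl_I2 (h : Hyp A B x y) (G : Finset V) : dl (I2 A B x y) G ↔ I3 A B x y G := by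
  constructor
  · intro hG
    refine ⟨hG A (A_facet_I2 h), hG B (B_facet_I2 h), ?_⟩
    rintro ⟨h1, h2⟩
    refine hG {x, y} (xy_facet_I2 h) ?_
    intro v hv
    rw [mem_insert, mem_singleton] at hv
    rcases hv with rfl | rfl
    · exact h1
    · exact h2
  · rintro ⟨h1, h2, h3⟩ F hF hFG
    rcases hF.1 with hF1 | hF1 | hF1
    · exact h1 ((max_sub hF (A_facet_I2 h).1 hF1).trans hFG)
    · exact h2 ((max_sub hF (B_facet_I2 h).1 hF1).trans hFG)
    · subst hF1
      exact h3 ⟨hFG (by simp), hFG (by simp)⟩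

theorem csc {F G : Finset V} (h : Fᶜ ⊆ G) : Gᶜ ⊆ F := by
  intro v hv
  by_contra hc
  exact (mem_compl.1 hv) (h (mem_compl.2 hc))

theorem xb_facet_I3 (h : Hyp A B x y) {b : V} (hb : b ∈ B) :
    Maximal (I3 A B x y) ({x, b}ᶜ : Finset V) := by
  refine ⟨⟨?_, ?_, ?_⟩, ?_⟩
  · intro hc
    have := hc h.hx
    simp at this
  · intro hc
    have := hc hb
    simp at this
  · rintro ⟨hc, -⟩
    simp at hc
  · rintro F ⟨h1, h2, h3⟩ hsub
    obtain ⟨a, haA, haF⟩ := not_subset.1 h1
    obtain ⟨b', hbB, hbF⟩ := not_subset.1 h2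
    have ha : a = x := by
      by_contra hax
      apply haF
      apply hsub
      rw [mem_compl, mem_insert, mem_singleton]
      rintro (h4 | h4)
      · exact hax h4
      · exact h.notA hb (h4 ▸ haA)
    have hb' : b' = b := by
      by_contra hax
      apply hbF
      apply hsub
      rw [mem_compl, mem_insert, mem_singleton]
      rintro (h4 | h4)
      · exact h.notA hbB (h4 ▸ h.hx)
      · exact hax h4
    subst ha hb'
    intro v hv
    rw [mem_compl, mem_insert, mem_singleton]
    rintro (h4 | h4)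
    · exact haF (h4 ▸ hv)
    · exact hbF (h4 ▸ hv)

theorem I3_symm (F : Finset V) : I3 A B x y F ↔ I3 B A y x F := by
  unfold I3; tauto

theorem ay_facet_I3 (h : Hyp A B x y) {a : V} (ha : a ∈ A) :
    Maximal (I3 A B x y) ({a, y}ᶜ : Finset V) := by
  rw [Finset.pair_comm]
  exact (max_congr (I3_symm (A := A) (B := B) (x := x) (y := y))).2 (xb_facet_I3 h.symm ha)

theorem dl_I3 (h : Hyp A B x y) (G : Finset V) : dl (I3 A B x y) G ↔ I4 A B x y G := by
  constructor
  · intro hG
    refine ⟨?_, ?_⟩
    · intro b hb hc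
      refine hG _ (xb_facet_I3 h hb) ?_
      exact csc hc
    · intro a ha hc
      refine hG _ (ay_facet_I3 h ha) ?_
      exact csc hc
  · rintro ⟨h1, h2⟩ F hF hFG
    obtain ⟨h3, h4, h5⟩ := hF.1
    obtain ⟨a, haA, haF⟩ := not_subset.1 h3
    obtain ⟨b, hbB, hbF⟩ := not_subset.1 h4
    by_cases hx : x ∈ F
    · have hy : y ∉ F := fun hy => h5 ⟨hx, hy⟩
      have h6 : F ⊆ ({a, y}ᶜ : Finset V) := by
        intro v hv
        rw [mem_compl, mem_insert, mem_singleton]
        rintro (h4 | h4)
        · exact haF (h4 ▸ hv)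
        · exact hy (h4 ▸ hv)
      have h7 := (max_sub hF (ay_facet_I3 h haA).1 h6).trans hFG
      exact h2 a haA (csc h7)
    · have h6 : F ⊆ ({x, b}ᶜ : Finset V) := by
        intro v hv
        rw [mem_compl, mem_insert, mem_singleton]
        rintro (h4 | h4)
        · exact hx (h4 ▸ hv)
        · exact hbF (h4 ▸ hv)
      have h7 := (max_sub hF (xb_facet_I3 h hbB).1 h6).trans hFG
      exact h1 b hbB (csc h7)

/-! ### Step 4 → 5 -/

/-- the complement of a pure pair, or of a pair avoiding the forbidden shapes, is a facet of `I4`. -/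
theorem pair_facet_I4 (h : Hyp A B x y) {K : Finset V} (hK : K.card = 2)
    (h1 : ∀ b ∈ B, K ≠ {x, b}) (h2 : ∀ a ∈ A, K ≠ {a, y}) :
    Maximal (I4 A B x y) Kᶜ := by
  refine ⟨⟨?_, ?_⟩, ?_⟩
  · intro b hb hc
    rw [compl_compl] at hc
    exact h1 b hb (eq_of_subset_of_card_le hc (by rw [hK]; exact card_le_two))
  · intro a ha hc
    rw [compl_compl] at hc
    exact h2 a ha (eq_of_subset_of_card_le hc (by rw [hK]; exact card_le_two))
  · rintro F ⟨h3, h4⟩ hsub
    have h5 : Fᶜ ⊆ K := csc hsub
    rcases Nat.lt_or_ge (Fᶜ).card 2 with hc | hc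
    · exfalso
      rcases Nat.lt_or_ge (Fᶜ).card 1 with hc0 | hc0
      · have : Fᶜ = ∅ := card_eq_zero.1 (by omega)
        exact h3 y h.hy (by rw [this]; exact empty_subset _)
      · obtain ⟨v, hv⟩ := card_eq_one.1 (show (Fᶜ).card = 1 by omega)
        rcases h.or v with hvA | hvB
        · exact h4 v hvA (by rw [hv]; simp)
        · exact h3 v hvB (by rw [hv]; simp)
    · have h6 : Fᶜ = K := eq_of_subset_of_card_le h5 (by omega)
      rw [← h6, compl_compl]

theorem pure_pair_ne {C : Finset V} {K : Finset V} (hK : K ⊆ C) {u v : V} (hv : u ∉ C ∨ v ∉ C) :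
    K ≠ {u, v} := by
  rintro rfl
  rcases hv with hv | hv
  · exact hv (hK (by simp))
  · exact hv (hK (by simp))

theorem pureA_facet_I4 (h : Hyp A B x y) {K : Finset V} (hK : K.card = 2) (hKA : K ⊆ A) :
    Maximal (I4 A B x y) Kᶜ :=
  pair_facet_I4 h hK (fun _ hb => pure_pair_ne hKA (Or.inr (h.notA hb)))
    (fun _ _ => pure_pair_ne hKA (Or.inr (h.notA h.hy)))

theorem pureB_facet_I4 (h : Hyp A B x y) {K : Finset V} (hK : K.card = 2) (hKB : K ⊆ B) :
    Maximal (I4 A B x y) Kᶜ :=
  pair_facet_I4 h hK (fun _ _ => pure_pair_ne hKB (Or.inl (h.notB h.hx)))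
    (fun _ ha => pure_pair_ne hKB (Or.inl (h.notB ha)))

theorem card_split (h : Hyp A B x y) (F : Finset V) : (F ∩ A).card + (F ∩ B).card = F.card := by
  rw [← card_union_of_disjoint]
  · rw [← inter_union_distrib_left, h.cov, inter_univ]
  · exact Disjoint.mono inter_subset_right inter_subset_right h.disj

theorem dl_I4 (h : Hyp A B x y) {s : ℕ} (hs : s + 3 = Fintype.card V) (G : Finset V) :
    dl (I4 A B x y) G ↔ D A B x y s G := by
  have hcard := h.card
  have hA := h.hA
  have hB := h.hB
  have hGc := card_compl G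
  have hGle : G.card ≤ Fintype.card V := card_le_univ G
  constructor
  · intro hG
    by_contra hD
    unfold D at hD
    push Not at hD
    obtain ⟨hD1, hD2, -⟩ := hD
    -- `G` misses at most two vertices
    rcases Nat.lt_or_ge G.card (s + 2) with hc | hc
    · -- |G| = s + 1
      have hG1 : G.card = s + 1 := by omega
      have hD3 := hD2 hG1
      refine hG (Gᶜ)ᶜ (pair_facet_I4 h (by omega) ?_ ?_) (by rw [compl_compl])
      · intro b hb hK
        have hxG : x ∉ G := mem_compl.1 (by rw [hK]; simp)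
        have hbG : b ∉ G := mem_compl.1 (by rw [hK]; simp)
        exact hbG (hD3 (fun hx => absurd hx hxG) (fun hA => hxG (hA h.hx)) hb)
      · intro a ha hK
        have hxG : y ∉ G := mem_compl.1 (by rw [hK]; simp)
        have haG : a ∉ G := mem_compl.1 (by rw [hK]; simp)
        exact hxG (hD3 (fun _ => hxG) (fun hA => haG (hA ha)) h.hy)
    · -- |Gᶜ| ≤ 1
      have hG1 : (Gᶜ).card ≤ 1 := by omega
      have key : ∃ K : Finset V, K.card = 2 ∧ (K ⊆ A ∨ K ⊆ B) ∧ Gᶜ ⊆ K := by
        rcases Nat.lt_or_ge (Gᶜ).card 1 with hc0 | hc0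
        · have h0 : Gᶜ = ∅ := card_eq_zero.1 (by omega)
          obtain ⟨K, hK, hKc⟩ := exists_subset_card_eq (n := 2) (s := A) hA
          exact ⟨K, hKc, Or.inl hK, by rw [h0]; exact empty_subset _⟩
        · obtain ⟨v, hv⟩ := card_eq_one.1 (show (Gᶜ).card = 1 by omega)
          rcases h.or v with hvA | hvB
          · obtain ⟨a, ha, hav⟩ := h.exA v
            refine ⟨{a, v}, card_pair hav, Or.inl ?_, by rw [hv]; simp⟩
            intro w hw
            rw [mem_insert, mem_singleton] at hw
            rcases hw with rfl | rfl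
            · exact ha
            · exact hvA
          · obtain ⟨a, ha, hav⟩ := h.symm.exA v
            refine ⟨{a, v}, card_pair hav, Or.inr ?_, by rw [hv]; simp⟩
            intro w hw
            rw [mem_insert, mem_singleton] at hw
            rcases hw with rfl | rfl
            · exact ha
            · exact hvB
      obtain ⟨K, hK, hKp, hGK⟩ := key
      rcases hKp with hKp | hKp
      · exact hG _ (pureA_facet_I4 h hK hKp) (csc hGK)
      · exact hG _ (pureB_facet_I4 h hK hKp) (csc hGK)
  · intro hD F hF hFG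
    -- the complement of a facet of `I4` has exactly two elements
    have hFcle : (Fᶜ).card ≤ 2 := by
      by_contra hc
      push Not at hc
      have hsp := card_split h (Fᶜ)
      have key : ∃ K : Finset V, K.card = 2 ∧ (K ⊆ A ∨ K ⊆ B) ∧ K ⊆ Fᶜ := by
        rcases Nat.lt_or_ge (Fᶜ ∩ A).card 2 with h1 | h1
        · obtain ⟨K, hK, hKc⟩ := exists_subset_card_eq (n := 2) (s := Fᶜ ∩ B) (by omega)
          exact ⟨K, hKc, Or.inr (hK.trans inter_subset_right), hK.trans inter_subset_left⟩
        · obtain ⟨K, hK, hKc⟩ := exists_subset_card_eq (n := 2) (s := Fᶜ ∩ A) (by omega)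
          exact ⟨K, hKc, Or.inl (hK.trans inter_subset_right), hK.trans inter_subset_left⟩
      obtain ⟨K, hK, hKp, hKF⟩ := key
      have hmax : Maximal (I4 A B x y) Kᶜ := by
        rcases hKp with hKp | hKp
        · exact pureA_facet_I4 h hK hKp
        · exact pureB_facet_I4 h hK hKp
      have h1 : F ⊆ Kᶜ := by
        intro v hv
        rw [mem_compl]
        exact fun hvK => (mem_compl.1 (hKF hvK)) hv
      have h2 := max_sub hF hmax.1 h1
      have h3 := card_le_card (csc h2)
      omega
    obtain ⟨hF1, hF2⟩ := hF.1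
    have hGF : Gᶜ ⊆ Fᶜ := by
      intro v hv
      rw [mem_compl] at hv ⊢
      exact fun hvF => hv (hFG hvF)
    have hGF2 := card_le_card hGF
    rcases hD with hD | ⟨hD1, hD2, hD3, hD4⟩ | ⟨hD1, hD2⟩
    · omega
    · have heq : Gᶜ = Fᶜ := eq_of_subset_of_card_le hGF (by omega)
      obtain ⟨a, haA, haG⟩ := not_subset.1 hD3
      obtain ⟨b, hbB, hbG⟩ := not_subset.1 hD4
      have hab : a ≠ b := fun e => h.notB haA (e ▸ hbB)
      have hG2 : (Gᶜ).card = 2 := by omega
      have hsub : ({a, b} : Finset V) ⊆ Gᶜ := by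
        intro v hv
        rw [mem_insert, mem_singleton] at hv
        rcases hv with rfl | rfl
        · exact mem_compl.2 haG
        · exact mem_compl.2 hbG
      have hK : ({a, b} : Finset V) = Gᶜ :=
        eq_of_subset_of_card_le hsub (by rw [hG2, card_pair hab])
      by_cases hx : x ∈ G
      · have hy : y ∉ G := fun hy => hD2 ⟨hx, hy⟩
        have hy2 : y ∈ ({a, b} : Finset V) := by rw [hK]; exact mem_compl.2 hy
        rw [mem_insert, mem_singleton] at hy2
        have hyb : y = b := by
          rcases hy2 with e | e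
          · exact absurd (e ▸ h.hy) (h.notB haA)
          · exact e
        exact hF2 a haA (by rw [← heq, ← hK, hyb])
      · have hx2 : x ∈ ({a, b} : Finset V) := by rw [hK]; exact mem_compl.2 hx
        rw [mem_insert, mem_singleton] at hx2
        have hxa : x = a := by
          rcases hx2 with e | e
          · exact e
          · exact absurd (e ▸ h.hx) (h.notA hbB)
        exact hF1 b hbB (by rw [← heq, ← hK, hxa])
    · rcases hD2 with hD2 | hD2
      · have := card_le_card hD2; omega
      · have := card_le_card hD2; omega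

/-! ### The generic step `D s → D (s-1)` -/

/-- the facets of `D (s)` are of three types. -/
theorem facet_D_type (h : Hyp A B x y) {s : ℕ} (hs : s + 3 ≤ Fintype.card V) {F : Finset V}
    (hF : Maximal (D A B x y s) F) :
    (F.card = s ∧ ((x ∈ F ∧ y ∈ F) ∨ A ⊆ F ∨ B ⊆ F)) ∨
    (F.card = s + 1 ∧ ¬ (x ∈ F ∧ y ∈ F) ∧ ¬ A ⊆ F ∧ ¬ B ⊆ F ∧ ¬ F ⊆ A ∧ ¬ F ⊆ B) ∨
    (F.card = s + 2 ∧ (F ⊆ A ∨ F ⊆ B)) := by
  rcases hF.1 with hF1 | ⟨hF1, hF2, hF3, hF4⟩ | hF1
  · left
    have hcs : F.card = s := by
      by_contra hne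
      obtain ⟨v, hv⟩ : ∃ v, v ∉ F := by
        by_contra hc
        push Not at hc
        have : F = univ := eq_univ_iff_forall.2 hc
        rw [this, card_univ] at hF1
        omega
      refine not_max_insert hF hv (Or.inl ?_)
      rw [card_insert_of_notMem hv]
      omega
    refine ⟨hcs, ?_⟩
    by_contra hc
    push Not at hc
    obtain ⟨hc1, hc2, hc3⟩ := hc
    -- a general extension
    have ext : ∀ {A B : Finset V} {x y : V}, Hyp A B x y → Maximal (D A B x y s) F →
        (x ∈ F → y ∉ F) → ¬ A ⊆ F → ¬ B ⊆ F → 2 ≤ (Fᶜ ∩ A).card → False := by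
      intro A B x y h hF hc1 hc2 hc3 hcA
      obtain ⟨v, hv, hvx⟩ : ∃ v ∈ Fᶜ ∩ A, v ≠ x := by
        by_contra hcc
        push Not at hcc
        have : Fᶜ ∩ A ⊆ {x} := fun v hv => by rw [mem_singleton]; exact hcc v hv
        have := card_le_card this
        rw [card_singleton] at this
        omega
      rw [mem_inter, mem_compl] at hv
      obtain ⟨hvF, hvA⟩ := hv
      refine not_max_insert hF hvF (Or.inr (Or.inl ⟨?_, ?_, ?_, ?_⟩))
      · rw [card_insert_of_notMem hvF, hcs]
      · rintro ⟨h1, h2⟩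
        rw [mem_insert] at h1 h2
        have h3 : x ∈ F := by
          rcases h1 with e | e
          · exact absurd e.symm hvx
          · exact e
        have h4 : y ∈ F := by
          rcases h2 with e | e
          · exact absurd hvA (e ▸ h.notA h.hy)
          · exact e
        exact hc1 h3 h4
      · intro hAF
        have : Fᶜ ∩ A ⊆ {v} := by
          intro w hw
          rw [mem_inter, mem_compl] at hw
          rw [mem_singleton]
          have := hAF hw.2
          rw [mem_insert] at this
          exact this.resolve_right hw.1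
        have := card_le_card this
        rw [card_singleton] at this
        omega
      · intro hBF
        apply hc3
        intro w hw
        have := hBF hw
        rw [mem_insert] at this
        rcases this with e | e
        · exact absurd hvA (e ▸ h.notA hw)
        · exact e
    have hsp := card_split h (Fᶜ)
    have hFc := card_compl F
    rcases Nat.lt_or_ge (Fᶜ ∩ A).card 2 with h1 | h1
    · exact ext h.symm ((max_congr (D_symm (A := A) (B := B) (x := x) (y := y) s)).1 hF)
        (fun hy hx => hc1 hx hy) hc3 hc2 (by omega)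
    · exact ext h hF hc1 hc2 hc3 h1
  · right; left
    have pure : ∀ {A B : Finset V} {x y : V}, Hyp A B x y → Maximal (D A B x y s) F →
        ¬ A ⊆ F → ¬ F ⊆ A := by
      intro A B x y h hF hAF hFA
      obtain ⟨a, haA, haF⟩ := not_subset.1 hAF
      refine not_max_insert hF haF (Or.inr (Or.inr ⟨?_, Or.inl ?_⟩))
      · rw [card_insert_of_notMem haF, hF1]
      · intro w hw
        rw [mem_insert] at hw
        rcases hw with rfl | hw
        · exact haA
        · exact hFA hw
    exact ⟨hF1, hF2, hF3, hF4, pure h hF hF3,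
      pure h.symm ((max_congr (D_symm (A := A) (B := B) (x := x) (y := y) s)).1 hF) hF4⟩
  · right; right; exact hF1

theorem type3_facet (h : Hyp A B x y) {s : ℕ} {F : Finset V} (hc : F.card = s + 2)
    (hp : F ⊆ A ∨ F ⊆ B) : Maximal (D A B x y s) F := by
  refine ⟨Or.inr (Or.inr ⟨hc, hp⟩), ?_⟩
  intro G hG hFG
  have : G.card ≤ s + 2 := by
    rcases hG with hG | ⟨hG, -⟩ | ⟨hG, -⟩ <;> omega
  have : F = G := eq_of_subset_of_card_le hFG (by omega)
  exact this ▸ le_refl _

theorem type2_facet {s : ℕ} {F : Finset V} (hc : F.card = s + 1)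
    (h1 : ¬ (x ∈ F ∧ y ∈ F)) (h2 : ¬ A ⊆ F) (h3 : ¬ B ⊆ F) (h4 : ¬ F ⊆ A) (h5 : ¬ F ⊆ B) :
    Maximal (D A B x y s) F := by
  refine ⟨Or.inr (Or.inl ⟨hc, h1, h2, h3⟩), ?_⟩
  intro G hG hFG
  have : G.card ≤ s + 1 := by
    rcases hG with hG | ⟨hG, -⟩ | ⟨hG, hG2⟩
    · omega
    · omega
    · exfalso
      rcases hG2 with hG2 | hG2
      · exact h4 (Subset.trans hFG hG2)
      · exact h5 (Subset.trans hFG hG2)
  have : F = G := eq_of_subset_of_card_le hFG (by omega)
  exact this ▸ le_refl _

theorem type1_facet (h : Hyp A B x y) {s : ℕ} {F : Finset V} (hc : F.card = s)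
    (h1 : (x ∈ F ∧ y ∈ F) ∨ A ⊆ F ∨ B ⊆ F) :
    Maximal (D A B x y s) F := by
  refine ⟨Or.inl hc.le, ?_⟩
  intro G hG hFG
  have hFG' : F ⊆ G := hFG
  have : G.card ≤ s := by
    rcases hG with hG | ⟨hG, hG1, hG2, hG3⟩ | ⟨hG, hG2⟩
    · omega
    · exfalso
      rcases h1 with ⟨h1, h2⟩ | h1 | h1
      · exact hG1 ⟨hFG' h1, hFG' h2⟩
      · exact hG2 (h1.trans hFG')
      · exact hG3 (h1.trans hFG')
    · exfalso
      rcases h1 with ⟨h1, h2⟩ | h1 | h1
      · rcases hG2 with hG2 | hG2
        · exact h.notA h.hy (hG2 (hFG' h2))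
        · exact h.notB h.hx (hG2 (hFG' h1))
      · rcases hG2 with hG2 | hG2
        · have h3 := card_le_card h1
          have h4 := card_le_card hG2
          omega
        · exact h.notB h.hx (hG2 (hFG' (h1 h.hx)))
      · rcases hG2 with hG2 | hG2
        · exact h.notA h.hy (hG2 (hFG' (h1 h.hy)))
        · have h3 := card_le_card h1
          have h4 := card_le_card hG2
          omega
  have : F = G := eq_of_subset_of_card_le hFG (by omega)
  exact this ▸ le_refl _

/-- a set in `D (s-1)` (here `s = t + 1`), or in the dumbbell when `s = 1`, contains no facet. -/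
theorem no_facet_of_D (h : Hyp A B x y) {t : ℕ} (hs : t + 4 ≤ Fintype.card V) {G : Finset V}
    (hG : D A B x y t G) {F : Finset V} (hF : Maximal (D A B x y (t + 1)) F) : ¬ F ⊆ G := by
  intro hFG
  have hle := card_le_card hFG
  rcases facet_D_type h (by omega) hF with ⟨h1, h2⟩ | ⟨h1, h2, h3, h4, h5, h6⟩ | ⟨h1, h2⟩
  · rcases hG with hG | ⟨hG, hG1, hG2, hG3⟩ | ⟨hG, hG1⟩
    · omega
    · rcases h2 with ⟨h2, h2'⟩ | h2 | h2
      · exact hG1 ⟨hFG h2, hFG h2'⟩
      · exact hG2 (h2.trans hFG)
      · exact hG3 (h2.trans hFG)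
    · rcases h2 with ⟨h2, h2'⟩ | h2 | h2
      · rcases hG1 with hG1 | hG1
        · exact h.notA h.hy (hG1 (hFG h2'))
        · exact h.notB h.hx (hG1 (hFG h2))
      · rcases hG1 with hG1 | hG1
        · have h3 := card_le_card h2
          have h4 := card_le_card hG1
          omega
        · exact h.notB h.hx (hG1 (hFG (h2 h.hx)))
      · rcases hG1 with hG1 | hG1
        · exact h.notA h.hy (hG1 (hFG (h2 h.hy)))
        · have h3 := card_le_card h2
          have h4 := card_le_card hG1
          omega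
  · rcases hG with hG | ⟨hG, hG1, hG2, hG3⟩ | ⟨hG, hG1⟩
    · omega
    · omega
    · rcases hG1 with hG1 | hG1
      · exact h5 (hFG.trans hG1)
      · exact h6 (hFG.trans hG1)
  · rcases hG with hG | ⟨hG, -⟩ | ⟨hG, hG1⟩
    · omega
    · omega
    · omega

/-- a mixed set of size at least `s + 1` not containing both `x` and `y` contains a facet of
`D s`. -/
theorem mixed_facet (h : Hyp A B x y) {s : ℕ} (hs1 : 1 ≤ s) {G : Finset V}
    (hGc : s + 1 ≤ G.card) (hxy : ¬ (x ∈ G ∧ y ∈ G)) (hGA : ¬ G ⊆ A) (hGB : ¬ G ⊆ B) :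
    ∃ F, Maximal (D A B x y s) F ∧ F ⊆ G := by
  obtain ⟨b, hbG, hbA⟩ := not_subset.1 hGA
  obtain ⟨a, haG, haB⟩ := not_subset.1 hGB
  have hbB : b ∈ B := (h.or b).resolve_left hbA
  have haA : a ∈ A := (h.or a).resolve_right haB
  have hab : a ≠ b := fun e => h.notB haA (e ▸ hbB)
  -- the case where one side is contained in `G`
  have side : ∀ {A B : Finset V} {x y : V}, Hyp A B x y → ¬ (x ∈ G ∧ y ∈ G) → A ⊆ G →
      ∀ b ∈ B, b ∈ G → ∃ F, Maximal (D A B x y s) F ∧ F ⊆ G := by
    intro A B x y h hxy hAG b hbB hbG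
    have hBG : ¬ B ⊆ G := fun hBG => hxy ⟨hAG h.hx, hBG h.hy⟩
    rcases Nat.lt_or_ge s A.card with hsA | hsA
    · obtain ⟨a1, ha1⟩ : ∃ a1, a1 ∈ A := ⟨x, h.hx⟩
      obtain ⟨a0, ha0, ha01⟩ := h.exA a1
      have hb0 : b ≠ a0 := fun e => h.notB ha0 (e ▸ hbB)
      have hb1 : b ≠ a1 := fun e => h.notB ha1 (e ▸ hbB)
      have hsub : ({a1, b} : Finset V) ⊆ G.erase a0 := by
        intro v hv
        rw [mem_insert, mem_singleton] at hv
        rcases hv with rfl | rfl
        · exact mem_erase.2 ⟨ha01.symm, hAG ha1⟩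
        · exact mem_erase.2 ⟨hb0, hbG⟩
      have hG1 : A.card + 1 ≤ G.card := by
        have h1 : insert b A ⊆ G := by
          intro v hv
          rw [mem_insert] at hv
          rcases hv with rfl | hv
          · exact hbG
          · exact hAG hv
        have h2 := card_le_card h1
        rw [card_insert_of_notMem (h.notA hbB)] at h2
        exact h2
      have hG2 : (G.erase a0).card = G.card - 1 := card_erase_of_mem (hAG ha0)
      obtain ⟨F, hF1, hF2, hF3⟩ := exists_subsuperset_card_eq hsub (n := s + 1)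
        (by rw [card_pair hb1.symm]; omega) (by omega)
      have hFG : F ⊆ G := hF2.trans (erase_subset _ _)
      refine ⟨F, type2_facet hF3 ?_ ?_ ?_ ?_ ?_, hFG⟩
      · rintro ⟨h1, h2⟩; exact hxy ⟨hFG h1, hFG h2⟩
      · intro hAF
        have := hF2 (hAF ha0)
        simp at this
      · intro hBF; exact hBG (hBF.trans hFG)
      · intro hFA; exact h.notA hbB (hFA (hF1 (by simp)))
      · intro hFB; exact h.notB ha1 (hFB (hF1 (by simp)))
    · obtain ⟨F, hF1, hF2, hF3⟩ := exists_subsuperset_card_eq hAG (n := s) hsA (by omega)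
      exact ⟨F, type1_facet h hF3 (Or.inr (Or.inl hF1)), hF2⟩
  by_cases hAG : A ⊆ G
  · exact side h hxy hAG b hbB hbG
  by_cases hBG : B ⊆ G
  · obtain ⟨F, hF1, hF2⟩ := side h.symm (fun hh => hxy ⟨hh.2, hh.1⟩) hBG a haA haG
    exact ⟨F, (max_congr (D_symm (A := A) (B := B) (x := x) (y := y) s)).2 hF1, hF2⟩
  have hsub : ({a, b} : Finset V) ⊆ G := by
    intro v hv
    rw [mem_insert, mem_singleton] at hv
    rcases hv with rfl | rfl
    · exact haG
    · exact hbG
  obtain ⟨F, hF1, hF2, hF3⟩ := exists_subsuperset_card_eq hsub (n := s + 1)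
    (by rw [card_pair hab]; omega) hGc
  refine ⟨F, type2_facet hF3 ?_ ?_ ?_ ?_ ?_, hF2⟩
  · rintro ⟨h1, h2⟩; exact hxy ⟨hF2 h1, hF2 h2⟩
  · intro hAF; exact hAG (hAF.trans hF2)
  · intro hBF; exact hBG (hBF.trans hF2)
  · intro hFA; exact hbA (hFA (hF1 (by simp)))
  · intro hFB; exact haB (hFB (hF1 (by simp)))

theorem pure_facet (h : Hyp A B x y) {s : ℕ} {G : Finset V}
    (hGc : s + 2 ≤ G.card) (hG : G ⊆ A ∨ G ⊆ B) :
    ∃ F, Maximal (D A B x y s) F ∧ F ⊆ G := by
  obtain ⟨F, hF1, hF2⟩ := exists_subset_card_eq hGc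
  refine ⟨F, type3_facet h hF2 ?_, hF1⟩
  rcases hG with hG | hG
  · exact Or.inl (hF1.trans hG)
  · exact Or.inr (hF1.trans hG)

/-- The generic step. -/
theorem dl_D (h : Hyp A B x y) {t : ℕ} (ht : 1 ≤ t) (hs : t + 4 ≤ Fintype.card V)
    (G : Finset V) : dl (D A B x y (t + 1)) G ↔ D A B x y t G := by
  constructor
  · intro hG
    by_contra hD
    have hex : ∃ F, Maximal (D A B x y (t + 1)) F ∧ F ⊆ G := by
      unfold D at hD
      push Not at hD
      obtain ⟨hD1, hD2, hD3⟩ := hD
      by_cases hxy : x ∈ G ∧ y ∈ G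
      · have hsub : ({x, y} : Finset V) ⊆ G := by
          intro v hv
          rw [mem_insert, mem_singleton] at hv
          rcases hv with rfl | rfl
          · exact hxy.1
          · exact hxy.2
        obtain ⟨F, hF1, hF2, hF3⟩ := exists_subsuperset_card_eq hsub (n := t + 1)
          (card_le_two.trans (by omega)) (by omega)
        exact ⟨F, type1_facet h hF3 (Or.inl ⟨hF1 (by simp), hF1 (by simp)⟩), hF2⟩
      · rcases Nat.lt_or_ge G.card (t + 2) with hc | hc
        · have hG1 : G.card = t + 1 := by omega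
          have h2 := hD2 hG1 (fun hx hy => hxy ⟨hx, hy⟩)
          refine ⟨G, type1_facet h hG1 ?_, Subset.refl _⟩
          by_cases hAG : A ⊆ G
          · exact Or.inr (Or.inl hAG)
          · exact Or.inr (Or.inr (h2 hAG))
        · by_cases hp : G ⊆ A ∨ G ⊆ B
          · have : G.card ≠ t + 2 := fun e => by
              obtain ⟨h3, h4⟩ := hD3 e
              rcases hp with hp | hp
              · exact h3 hp
              · exact h4 hp
            exact pure_facet h (by omega) hp
          · push Not at hp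
            exact mixed_facet h (by omega) (by omega) hxy hp.1 hp.2
    obtain ⟨F, hF, hFG⟩ := hex
    exact hG F hF hFG
  · intro hG F hF
    exact no_facet_of_D h hs hG hF

/-- The last step: the dumbbell comes back. -/
theorem dl_D_one (h : Hyp A B x y) (hs : 5 ≤ Fintype.card V)
    (G : Finset V) : dl (D A B x y 1) G ↔ I0 A B x y G := by
  have hxy : x ≠ y := fun e => h.notB h.hx (e ▸ h.hy)
  have hA := h.hA
  have hB := h.hB
  constructor
  · intro hG
    by_contra hD
    have hex : ∃ F, Maximal (D A B x y 1) F ∧ F ⊆ G := by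
      unfold I0 at hD
      push Not at hD
      obtain ⟨hD1, hD2, hD3⟩ := hD
      by_cases hp : G ⊆ A ∨ G ⊆ B
      · have : G.card ≠ 2 := fun e => by
          obtain ⟨h3, h4⟩ := hD2 e
          rcases hp with hp | hp
          · exact h3 hp
          · exact h4 hp
        exact pure_facet h (by omega) hp
      · push Not at hp
        obtain ⟨b, hbG, hbA⟩ := not_subset.1 hp.1
        obtain ⟨a, haG, haB⟩ := not_subset.1 hp.2
        have hbB : b ∈ B := (h.or b).resolve_left hbA
        have haA : a ∈ A := (h.or a).resolve_right haB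
        have key : ∃ a' ∈ A, ∃ b' ∈ B, a' ∈ G ∧ b' ∈ G ∧ ¬ (a' = x ∧ b' = y) := by
          by_contra hk
          push Not at hk
          apply hD3
          have hax := hk a haA b hbB haG hbG
          ext v
          rw [mem_insert, mem_singleton]
          constructor
          · intro hv
            rcases h.or v with hvA | hvB
            · left; exact (hk v hvA b hbB hv hbG).1
            · right; exact (hk a haA v hvB haG hv).2
          · rintro (rfl | rfl)
            · exact hax.1 ▸ haG
            · exact hax.2 ▸ hbG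
        obtain ⟨a', ha', b', hb', ha'G, hb'G, hab⟩ := key
        have hne : a' ≠ b' := fun e => h.notB ha' (e ▸ hb')
        refine ⟨{a', b'}, type2_facet (by rw [card_pair hne]) ?_ ?_ ?_ ?_ ?_, ?_⟩
        · rintro ⟨h1, h2⟩
          rw [mem_insert, mem_singleton] at h1 h2
          apply hab
          constructor
          · rcases h1 with h1 | h1
            · exact h1.symm
            · exact absurd (h1 ▸ h.hx) (h.notA hb')
          · rcases h2 with h2 | h2
            · exact absurd (h2 ▸ h.hy) (h.notB ha')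
            · exact h2.symm
        · intro hc
          obtain ⟨a2, ha2, ha2'⟩ := h.exA a'
          have := hc ha2
          rw [mem_insert, mem_singleton] at this
          rcases this with e | e
          · exact ha2' e
          · exact h.notA hb' (e ▸ ha2)
        · intro hc
          obtain ⟨a2, ha2, ha2'⟩ := h.symm.exA b'
          have := hc ha2
          rw [mem_insert, mem_singleton] at this
          rcases this with e | e
          · exact h.notB ha' (e ▸ ha2)
          · exact ha2' e
        · intro hc; exact h.notA hb' (hc (by simp))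
        · intro hc; exact h.notB ha' (hc (by simp))
        · intro v hv
          rw [mem_insert, mem_singleton] at hv
          rcases hv with rfl | rfl
          · exact ha'G
          · exact hb'G
    obtain ⟨F, hF, hFG⟩ := hex
    exact hG F hF hFG
  · intro hG F hF hFG
    have hle := card_le_card hFG
    have hsides : ∀ {A B : Finset V} {x y : V}, Hyp A B x y → F.card = 1 → ¬ A ⊆ F := by
      intro A B x y h h1 hc
      have := card_le_card hc
      have := h.hA
      omega
    rcases facet_D_type h (by omega) hF with ⟨h1, h2⟩ | ⟨h1, h2, h3, h4, h5, h6⟩ | ⟨h1, h2⟩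
    · rcases h2 with ⟨h2, h2'⟩ | h2 | h2
      · exact hxy (card_le_one.1 h1.le x h2 y h2')
      · exact hsides h h1 h2
      · exact hsides h.symm h1 h2
    · rcases hG with hG | ⟨hG, hG2⟩ | hG
      · omega
      · rcases hG2 with hG2 | hG2
        · exact h5 (hFG.trans hG2)
        · exact h6 (hFG.trans hG2)
      · have : F = G := eq_of_subset_of_card_le hFG (by rw [hG, card_pair hxy]; omega)
        rw [this, hG] at h2
        exact h2 ⟨by simp, by simp⟩
    · rcases hG with hG | ⟨hG, hG2⟩ | hG
      · omega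
      · omega
      · rw [hG, card_pair hxy] at hle
        omega

end Pool.Agent.R140.NF
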